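import Pool.Agent.H156.Fpf.Main
import Pool.Agent.H156.Fpf.P_claimS
import Pool.Agent.H156.Fpf.P_claimT
import Pool.Agent.H156.Fpf.P_lemmaK
import Pool.Agent.H156.Fpf.P_final
import Pool.Agent.H156.Fpf.P_cross
import Pool.Agent.H156.Fpf.P_move
import Pool.Agent.H156.Fpf.P_toRun

/-!
Letter increments under fixed-point-free involution Little bumps are `0`, `1` or `2`.

The definitions (`Pool.Agent.H156.Fpf.Defs`) follow the problem: `IFpf`, `RSp`, `FpfWord`, `Marked`,
`Semi`, `Fpush` and `IsFb π w v`, which says `fb_π(w) = v`.

The proof follows the arc `R` of `π` which is pushed over, and shows that no letter is pushed three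
times: at two different jumps (a jump pushes the marked letter over both strands of `R`) the later
lower strand lies strictly above the earlier upper strand (claim S), and if a letter is pushed over
the upper strand and later over the lower strand, a jump over it happens in between (claim T).
-/

namespace Pool.Agent.Results.MP_46c28c_co.FpfIncrements

open Pool.Agent.H156.Fpf

/-- For every `π ∈ I^fpf_ℤ`, every fpf-involution word `w` and `v = fb_π(w)`, every letter of `v`
exceeds the corresponding letter of `w` by `0`, `1` or `2`. -/
theorem result : ∀ π ∈ IFpf, ∀ w : List ℤ, FpfWord w → ∀ v : List ℤ, IsFb π w v →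
    v.length = w.length ∧ ∀ k, k < w.length →
      v.getD k 0 - w.getD k 0 = 0 ∨ v.getD k 0 - w.getD k 0 = 1 ∨ v.getD k 0 - w.getD k 0 = 2 :=
  fun π _ w hw v hv =>
    main_of_core
      (core_of cross2 cross1 (move cross2 cross1) toRun claimS claimT lemmaK final) π w hw v hv

end Pool.Agent.Results.MP_46c28c_co.FpfIncrements
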